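import Pool.Agent.Results.MP_404158_an.SharpS7

set_option autoImplicit false

/-!
# Stability of the weighted quartic extension inequality on the 7-sphere

The threshold `a_*` is `0`, and for every `a ≥ 0` the weighted inequality holds with an explicit
remainder term: the deficit of `f` is at least
`a (|S⁷| ‖f‖₂² + |∫ f|²) |S⁷| ‖f - mean f‖₂²`.
-/

open MeasureTheory
open scoped Real ENNReal

namespace Pool.Agent.Results.MP_404158_an.Stability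

open Pool.Sph Pool.Agent.Results.MP_404158_an.SharpS7

/-- The mean of `f` over the sphere. -/
noncomputable def mean (f : S7 → ℂ) : ℂ := (sig.real Set.univ)⁻¹ • ∫ ω, f ω ∂sig

/-- The exact form of the Cauchy-Schwarz inequality. -/
theorem cs_exact (f : S7 → ℂ) (hf : MemLp f 2 sig) :
    ‖∫ ω, f ω ∂sig‖ₑ ^ 4 +
      (sig Set.univ * eLpNorm f 2 sig ^ 2 + ‖∫ ω, f ω ∂sig‖ₑ ^ 2) *
        (sig Set.univ * eLpNorm (fun ω => f ω - mean f) 2 sig ^ 2) =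
      sig Set.univ ^ 2 * eLpNorm f 2 sig ^ 4 := by
  have hS := sig_pos
  have hmem : MemLp (fun ω => f ω - mean f) 2 sig := hf.sub (memLp_const _)
  have hvar := cs_var f hf
  have e1 := cs_eLp f hf
  have e2 := cs_eLp _ hmem
  have e3 : ∫ ω, ‖f ω - mean f‖ ^ 2 ∂sig =
      (∫ ω, ‖f ω‖ ^ 2 ∂sig) - (sig.real Set.univ)⁻¹ * ‖∫ ω, f ω ∂sig‖ ^ 2 := hvar
  have hV0 : 0 ≤ ∫ ω, ‖f ω - mean f‖ ^ 2 ∂sig := integral_nonneg fun ω => by positivity
  have hN0 : 0 ≤ ∫ ω, ‖f ω‖ ^ 2 ∂sig := integral_nonneg fun ω => by positivity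
  set N : ℝ := ∫ ω, ‖f ω‖ ^ 2 ∂sig with hN
  set V : ℝ := ∫ ω, ‖f ω - mean f‖ ^ 2 ∂sig with hV
  set I : ℂ := ∫ ω, f ω ∂sig with hI
  have hSu : sig Set.univ = ENNReal.ofReal (sig.real Set.univ) := by
    rw [Measure.real, ENNReal.ofReal_toReal (measure_ne_top _ _)]
  set s : ℝ := sig.real Set.univ with hs
  have e4 : ‖I‖ₑ ^ 2 = ENNReal.ofReal (‖I‖ ^ 2) := by
    rw [← ofReal_norm, ← ENNReal.ofReal_pow (norm_nonneg _)]
  have e5 : ‖I‖ₑ ^ 4 = (‖I‖ₑ ^ 2) ^ 2 := by rw [← pow_mul]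
  have e6 : eLpNorm f 2 sig ^ 4 = (eLpNorm f 2 sig ^ 2) ^ 2 := by rw [← pow_mul]
  have hi0 : 0 ≤ ‖I‖ ^ 2 := by positivity
  rw [e5, e6, e1, e2, e4, hSu, ← ENNReal.ofReal_pow hi0, ← ENNReal.ofReal_mul hS.le,
    ← ENNReal.ofReal_mul hS.le, ← ENNReal.ofReal_add (by positivity) hi0,
    ← ENNReal.ofReal_mul (by positivity), ← ENNReal.ofReal_add (by positivity) (by positivity),
    ← ENNReal.ofReal_pow hS.le, ← ENNReal.ofReal_pow hN0, ← ENNReal.ofReal_mul (by positivity)]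
  congr 1
  have hsV : s * V = s * N - ‖I‖ ^ 2 := by
    rw [e3, mul_sub, mul_inv_cancel_left₀ hS.ne']
  rw [hsV]
  ring

/-- The weighted inequality with the remainder term. -/
theorem stability (a : ℝ) (f : S7 → ℂ) (hf : MemLp f 2 sig) :
    eLpNorm (ext f) 4 volume ^ 4 + ENNReal.ofReal a * ‖∫ ω, f ω ∂sig‖ₑ ^ 4 +
      ENNReal.ofReal a * ((sig Set.univ * eLpNorm f 2 sig ^ 2 + ‖∫ ω, f ω ∂sig‖ₑ ^ 2) *
        (sig Set.univ * eLpNorm (fun ω => f ω - mean f) 2 sig ^ 2)) ≤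
      W a * eLpNorm f 2 sig ^ 4 := by
  obtain ⟨h1, -⟩ := sharp f hf
  have e : W a * eLpNorm f 2 sig ^ 4 =
      ((sig Set.univ)⁻¹ ^ 2 * eLpNorm (ext fun _ => 1) 4 volume ^ 4) * eLpNorm f 2 sig ^ 4 +
        ENNReal.ofReal a * (sig Set.univ ^ 2 * eLpNorm f 2 sig ^ 4) := by
    unfold W; ring
  rw [e, ← cs_exact f hf, add_assoc, ← mul_add]
  gcongr

/-- (1) The total mass of the surface measure is `π⁴/3`. (2) For all `a` and all `f` in `L²(S⁷)`,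
`ext f` is in `L⁴` and the weighted inequality holds with the remainder term
`a (|S⁷| ‖f‖₂² + |∫ f|²) |S⁷| ‖f - mean f‖₂²` (for negative `a` read `max a 0`). (3) There is
equality for the constant function `1`. (4) Every `a > 0` is admissible, and `a_* = 0`. -/
theorem result :
    sig Set.univ = ENNReal.ofReal (π ^ 4 / 3) ∧
    (∀ (a : ℝ) (f : S7 → ℂ), MemLp f 2 sig → MemLp (ext f) 4 volume ∧
      eLpNorm (ext f) 4 volume ^ 4 + ENNReal.ofReal a * ‖∫ ω, f ω ∂sig‖ₑ ^ 4 +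
        ENNReal.ofReal a * ((sig Set.univ * eLpNorm f 2 sig ^ 2 + ‖∫ ω, f ω ∂sig‖ₑ ^ 2) *
          (sig Set.univ * eLpNorm (fun ω => f ω - mean f) 2 sig ^ 2)) ≤
        W a * eLpNorm f 2 sig ^ 4) ∧
    (∀ a : ℝ, eLpNorm (ext fun _ => 1) 4 volume ^ 4
        + ENNReal.ofReal a * ‖∫ _ω : S7, (1 : ℂ) ∂sig‖ₑ ^ 4
        = W a * eLpNorm (fun _ : S7 => (1 : ℂ)) 2 sig ^ 4) ∧
    (∀ a : ℝ, 0 < a → Admissible a) ∧
    sInf {a : ℝ | Admissible a} = 0 :=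
  ⟨sig_univ, fun a f hf => ⟨(sharp f hf).2, stability a f hf⟩, const_eq, adm,
    SharpS7.result.2.2.2.2.2⟩

end Pool.Agent.Results.MP_404158_an.Stability
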